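import Pool.Agent.helper70.M10.Tab
import Pool.Agent.helper70.M9.G3

set_option autoImplicit false

/-! # M10-K (R2): sizes of the tables -/

namespace Oct.N

open Oct

namespace MK

/-! ## lists -/

theorem nrB_cons (c : ℤ) (l : List ℤ) : nrB (c :: l) = c.natAbs + nrB l := rfl

theorem absP_one (l : List ℤ) : absP l 1 = nrB l := by
  induction l with
  | nil => rfl
  | cons c l ih => rw [g3_absP_cons, nrB_cons, ih, Nat.one_mul]

/-- sum of the absolute values of all the entries -/
def nrT (L : List (List ℤ)) : ℕ := L.foldr (fun l r => nrB l + r) 0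

theorem nrT_cons (l : List ℤ) (L : List (List ℤ)) : nrT (l :: L) = nrB l + nrT L := rfl

theorem mulP_cons (a : ℤ) (p q : List ℤ) :
    mulP (a :: p) q = addP (smulP a q) (0 :: mulP p q) := rfl

theorem mulP_len {m n : ℕ} {p q : List ℤ} (hp : p.length ≤ m + 1) (hq : q.length ≤ n + 1) :
    (mulP p q).length ≤ m + n + 1 := by
  induction p generalizing m with
  | nil => exact Nat.zero_le _
  | cons a p ih =>
    rw [mulP_cons]
    refine g3_addP_len _ _ ?_ ?_
    · unfold smulP; rw [List.length_map]; omega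
    · rw [List.length_cons] at hp ⊢
      cases p with
      | nil => change 0 + 1 ≤ _; omega
      | cons b p =>
        cases m with
        | zero => rw [List.length_cons] at hp; omega
        | succ m =>
          have := ih (m := m) (by omega)
          omega

theorem mulP_abs (p q : List ℤ) (x : ℕ) : absP (mulP p q) x ≤ absP p x * absP q x := by
  induction p with
  | nil => exact Nat.zero_le _
  | cons a p ih =>
    rw [mulP_cons]
    refine (g3_absP_add _ _ _).trans ?_
    rw [g3_absP_smul, g3_absP_cons, g3_absP_cons]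
    calc a.natAbs * absP q x + ((0 : ℤ).natAbs + x * absP (mulP p q) x)
        ≤ a.natAbs * absP q x + (0 + x * (absP p x * absP q x)) := by
          refine Nat.add_le_add_left (Nat.add_le_add_left (Nat.mul_le_mul_left _ ih) _) _
      _ = (a.natAbs + x * absP p x) * absP q x := by ring

theorem mapmul_abs (b : List ℤ) (L : List (List ℤ)) (t u : ℕ) :
    absT (L.map (mulP b)) t u ≤ absP b t * absT L t u := by
  induction L with
  | nil => exact Nat.zero_le _
  | cons l L ih =>
    rw [List.map_cons, g3_absT_cons, g3_absT_cons]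
    calc absP (mulP b l) t + u * absT (L.map (mulP b)) t u
        ≤ absP b t * absP l t + u * (absP b t * absT L t u) :=
          Nat.add_le_add (mulP_abs _ _ _) (Nat.mul_le_mul_left _ ih)
      _ = absP b t * (absP l t + u * absT L t u) := by ring

/-! ## powers of `Y` -/

theorem pwL_succ (Y : List ℤ) (n : ℕ) :
    pwL Y (n + 1) = mulP Y ((pwL Y n).headD []) :: pwL Y n := rfl

theorem pwL_len {Y : List ℤ} (hY : Y.length ≤ 2) (n : ℕ) :
    ((pwL Y n).headD []).length ≤ n + 1 := by
  induction n with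
  | zero => exact le_rfl
  | succ n ih =>
    rw [pwL_succ, List.headD_cons]
    have := mulP_len (m := 1) hY ih
    omega

theorem pwL_abs {Y : List ℤ} {M : ℕ} (hY : absP Y 1 ≤ M) (n : ℕ) :
    absP ((pwL Y n).headD []) 1 ≤ M ^ n := by
  induction n with
  | zero => exact le_rfl
  | succ n ih =>
    rw [pwL_succ, List.headD_cons, pow_succ, mul_comm]
    exact (mulP_abs _ _ _).trans (Nat.mul_le_mul hY ih)

/-! ## forms -/

theorem formL_nil (X l : List ℤ) : formL X l [] = [] := by cases l <;> rfl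

theorem formL_nil' (X : List ℤ) (P : List (List ℤ)) : formL X [] P = [] := by cases P <;> rfl

theorem formL_cons (X l : List ℤ) (c : ℤ) (p : List ℤ) (P : List (List ℤ)) :
    formL X (c :: l) (p :: P) = addP (smulP c p) (mulP (formL X l P) X) := rfl

theorem formL_len {X Y : List ℤ} (hX : X.length ≤ 2) (hY : Y.length ≤ 2) (n : ℕ) (l : List ℤ) :
    (formL X l (pwL Y n)).length ≤ n + 1 := by
  induction n generalizing l with
  | zero =>
    cases l with
    | nil => rw [formL_nil']; exact Nat.zero_le _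
    | cons c l =>
      change (formL X (c :: l) [[1]]).length ≤ _
      rw [formL_cons, formL_nil]
      exact g3_addP_len _ _ le_rfl (Nat.zero_le _)
  | succ n ih =>
    cases l with
    | nil => rw [formL_nil']; exact Nat.zero_le _
    | cons c l =>
      rw [pwL_succ, formL_cons]
      refine g3_addP_len _ _ ?_ ?_
      · unfold smulP
        rw [List.length_map]
        exact pwL_len hY (n + 1)
      · exact mulP_len (ih l) hX

theorem formL_abs {X Y : List ℤ} {M : ℕ} (hX : absP X 1 ≤ M) (hY : absP Y 1 ≤ M) (n : ℕ)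
    (l : List ℤ) : absP (formL X l (pwL Y n)) 1 ≤ nrB l * M ^ n := by
  induction n generalizing l with
  | zero =>
    cases l with
    | nil => rw [formL_nil']; exact Nat.zero_le _
    | cons c l =>
      change absP (formL X (c :: l) [[1]]) 1 ≤ _
      rw [formL_cons, formL_nil]
      refine (g3_absP_add _ _ _).trans ?_
      rw [g3_absP_smul, nrB_cons, pow_zero, Nat.mul_one]
      change c.natAbs * 1 + 0 ≤ _
      omega
  | succ n ih =>
    cases l with
    | nil => rw [formL_nil']; exact Nat.zero_le _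
    | cons c l =>
      rw [pwL_succ, formL_cons]
      refine (g3_absP_add _ _ _).trans ?_
      rw [g3_absP_smul, nrB_cons]
      have h1 : absP (mulP Y ((pwL Y n).headD [])) 1 ≤ M ^ (n + 1) := pwL_abs hY (n + 1)
      calc c.natAbs * absP (mulP Y ((pwL Y n).headD [])) 1 + absP (mulP (formL X l (pwL Y n)) X) 1
          ≤ c.natAbs * M ^ (n + 1) + nrB l * M ^ n * M :=
            Nat.add_le_add (Nat.mul_le_mul_left _ h1)
              ((mulP_abs _ _ _).trans (Nat.mul_le_mul (ih l) hX))
        _ = (c.natAbs + nrB l) * M ^ (n + 1) := by ring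

theorem formsL_nil (X : List ℤ) (fm : List (List ℤ)) : formsL X fm [] = [] := by
  cases fm <;> rfl

theorem formsL_nil' (X : List ℤ) (P : List (List ℤ)) : formsL X [] P = [] := by
  cases P <;> rfl

theorem formsL_cons (X l p : List ℤ) (fm P : List (List ℤ)) :
    formsL X (l :: fm) (p :: P) = formL X l (p :: P) :: formsL X fm P := rfl

theorem formsL_abs {X Y : List ℤ} {M z : ℕ} (hX : absP X 1 ≤ M) (hY : absP Y 1 ≤ M) (hz : z ≤ M)
    (n : ℕ) (fm : List (List ℤ)) : absT (formsL X fm (pwL Y n)) 1 z ≤ nrT fm * M ^ n := by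
  induction n generalizing fm with
  | zero =>
    cases fm with
    | nil => rw [formsL_nil']; exact Nat.zero_le _
    | cons l fm =>
      have h := formL_abs hX hY 0 l
      change absT (formsL X (l :: fm) [[1]]) 1 z ≤ _
      rw [formsL_cons, formsL_nil, g3_absT_cons, g3_absT_nil, Nat.mul_zero, Nat.add_zero, nrT_cons]
      refine h.trans (Nat.mul_le_mul_right _ (Nat.le_add_right _ _))
  | succ n ih =>
    cases fm with
    | nil => rw [formsL_nil']; exact Nat.zero_le _
    | cons l fm =>
      have h : absP (formL X l (mulP Y ((pwL Y n).headD []) :: pwL Y n)) 1 ≤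
        nrB l * M ^ (n + 1) := formL_abs hX hY (n + 1) l
      rw [pwL_succ, formsL_cons, g3_absT_cons, nrT_cons]
      calc absP (formL X l (mulP Y ((pwL Y n).headD []) :: pwL Y n)) 1 +
            z * absT (formsL X fm (pwL Y n)) 1 z
          ≤ nrB l * M ^ (n + 1) + M * (nrT fm * M ^ n) :=
            Nat.add_le_add h (Nat.mul_le_mul hz (ih fm))
        _ = (nrB l + nrT fm) * M ^ (n + 1) := by ring

/-! ## translation and scaling: sizes -/

theorem stL_abs (b : List ℤ) (M : List (List ℤ)) (c : List ℤ) (w : ℕ) :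
    absT (stL b M c) 1 w ≤ absP c 1 + (w + absP b 1) * absT M 1 w := by
  induction M generalizing c with
  | nil =>
    change absT [c] 1 w ≤ _
    rw [g3_absT_cons, g3_absT_nil]
    omega
  | cons m M ih =>
    change absT (addP c (mulP b m) :: stL b M m) 1 w ≤ _
    rw [g3_absT_cons, g3_absT_cons]
    calc absP (addP c (mulP b m)) 1 + w * absT (stL b M m) 1 w
        ≤ (absP c 1 + absP b 1 * absP m 1) +
            w * (absP m 1 + (w + absP b 1) * absT M 1 w) :=
          Nat.add_le_add ((g3_absP_add _ _ _).trans (Nat.add_le_add_left (mulP_abs _ _ _) _))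
            (Nat.mul_le_mul_left _ (ih m))
      _ = absP c 1 + (w + absP b 1) * (absP m 1 + w * absT M 1 w) := by ring

theorem shL_abs (b : List ℤ) (L : List (List ℤ)) (w : ℕ) :
    absT (shL b L) 1 w ≤ absT L 1 (w + absP b 1) := by
  induction L with
  | nil => exact le_rfl
  | cons c L ih =>
    change absT (stL b (shL b L) c) 1 w ≤ _
    rw [g3_absT_cons]
    exact (stL_abs _ _ _ _).trans (Nat.add_le_add_left (Nat.mul_le_mul_left _ ih) _)

theorem scL_abs (a : ℤ) (L : List (List ℤ)) (p : ℤ) (w : ℕ) :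
    absT (scL a L p) 1 w = p.natAbs * absT L 1 (a.natAbs * w) := by
  induction L generalizing p with
  | nil => rfl
  | cons c L ih =>
    change absT (smulP p c :: scL a L (p * a)) 1 w = _
    rw [g3_absT_cons, g3_absT_cons, g3_absP_smul, ih, Int.natAbs_mul]
    ring

/-! ## lengths of the rows -/

/-- the row `i` has length at most `k (d - i) + e + 1` -/
def RL (k e : ℕ) : ℕ → List (List ℤ) → Prop
  | _, [] => True
  | 0, l :: L => l.length ≤ e + 1 ∧ L = []
  | d + 1, l :: L => l.length ≤ k * (d + 1) + e + 1 ∧ RL k e d L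

theorem RL_nil (k e d : ℕ) : RL k e d [] := by cases d <;> trivial

theorem RL_zero {k e : ℕ} {l : List ℤ} {L : List (List ℤ)} :
    RL k e 0 (l :: L) ↔ l.length ≤ e + 1 ∧ L = [] := Iff.rfl

theorem RL_succ {k e d : ℕ} {l : List ℤ} {L : List (List ℤ)} :
    RL k e (d + 1) (l :: L) ↔ l.length ≤ k * (d + 1) + e + 1 ∧ RL k e d L := Iff.rfl

theorem RL_G3L {k e d m : ℕ} {L : List (List ℤ)} (h : RL k e d L) (hm : k * d + e ≤ m) :
    G3L m d L := by
  induction d generalizing L m with
  | zero =>
    cases L with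
    | nil => exact ⟨Nat.zero_le _, fun l hl => absurd hl List.not_mem_nil⟩
    | cons l L =>
      obtain ⟨h1, h2⟩ := RL_zero.1 h
      subst h2
      refine ⟨le_rfl, fun l' hl' => ?_⟩
      rw [List.mem_singleton.1 hl']
      omega
  | succ d ih =>
    cases L with
    | nil => exact ⟨Nat.zero_le _, fun l hl => absurd hl List.not_mem_nil⟩
    | cons l L =>
      obtain ⟨h1, h2⟩ := RL_succ.1 h
      rw [G3L.cons_iff]
      have h3 : k * (d + 1) = k * d + k := by ring
      exact ⟨by omega, ih h2 (by omega)⟩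

theorem stL_RL {k e d : ℕ} {b : List ℤ} (hb : b.length ≤ k + 1) {M : List (List ℤ)} {c : List ℤ}
    (hM : RL k e d M) (hc : c.length ≤ k * (d + 1) + e + 1) : RL k e (d + 1) (stL b M c) := by
  induction M generalizing c d with
  | nil => exact ⟨hc, RL_nil _ _ _⟩
  | cons m M ih =>
    change RL k e (d + 1) (addP c (mulP b m) :: stL b M m)
    rw [RL_succ]
    cases d with
    | zero =>
      obtain ⟨h1, h2⟩ := RL_zero.1 hM
      subst h2
      refine ⟨g3_addP_len _ _ hc ?_, h1, rfl⟩
      have := mulP_len hb h1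
      omega
    | succ d =>
      obtain ⟨h1, h2⟩ := RL_succ.1 hM
      refine ⟨g3_addP_len _ _ hc ?_, ih h2 h1⟩
      have h3 := mulP_len (n := k * (d + 1) + e) hb h1
      have h4 : k * (d + 1 + 1) = k * (d + 1) + k := by ring
      omega

theorem shL_RL {k e d : ℕ} (hk : 1 ≤ k) {b : List ℤ} (hb : b.length ≤ k + 1)
    {L : List (List ℤ)} (hL : RL 1 e d L) : RL k e d (shL b L) := by
  induction L generalizing d with
  | nil => exact RL_nil _ _ _
  | cons c L ih =>
    change RL k e d (stL b (shL b L) c)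
    cases d with
    | zero =>
      obtain ⟨h1, h2⟩ := RL_zero.1 hL
      subst h2
      exact ⟨h1, rfl⟩
    | succ d =>
      obtain ⟨h1, h2⟩ := RL_succ.1 hL
      refine stL_RL hb (ih h2) (h1.trans ?_)
      have := Nat.mul_le_mul_right (d + 1) hk
      omega

theorem scL_RL {k e d : ℕ} (a : ℤ) {L : List (List ℤ)} (p : ℤ) (hL : RL k e d L) :
    RL k e d (scL a L p) := by
  induction L generalizing d p with
  | nil => exact RL_nil _ _ _
  | cons c L ih =>
    change RL k e d (smulP p c :: scL a L (p * a))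
    have hl : (smulP p c).length = c.length := by unfold smulP; rw [List.length_map]
    cases d with
    | zero =>
      obtain ⟨h1, h2⟩ := RL_zero.1 hL
      subst h2
      exact ⟨by rw [hl]; exact h1, rfl⟩
    | succ d =>
      obtain ⟨h1, h2⟩ := RL_succ.1 hL
      exact ⟨by rw [hl]; exact h1, ih _ h2⟩

theorem RL_map {k e e' d : ℕ} {L : List (List ℤ)} {f : List ℤ → List ℤ}
    (hf : ∀ l, ∀ n, l.length ≤ n + e + 1 → (f l).length ≤ n + e' + 1) (hL : RL k e d L) :
    RL k e' d (L.map f) := by
  induction L generalizing d with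
  | nil => exact RL_nil _ _ _
  | cons c L ih =>
    rw [List.map_cons]
    cases d with
    | zero =>
      obtain ⟨h1, h2⟩ := RL_zero.1 hL
      subst h2
      exact ⟨by have := hf c 0 (by omega); omega, rfl⟩
    | succ d =>
      obtain ⟨h1, h2⟩ := RL_succ.1 hL
      exact ⟨hf c _ h1, ih h2⟩

theorem RL_add {k e d : ℕ} {L L' : List (List ℤ)} (hL : RL k e d L) (hL' : RL k e d L') :
    RL k e d (addT L L') := by
  induction L generalizing d L' with
  | nil => exact hL'
  | cons c L ih =>
    cases L' with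
    | nil => exact hL
    | cons c' L' =>
      change RL k e d (addP c c' :: addT L L')
      cases d with
      | zero =>
        obtain ⟨h1, h2⟩ := RL_zero.1 hL
        obtain ⟨h3, h4⟩ := RL_zero.1 hL'
        subst h2
        subst h4
        exact ⟨g3_addP_len _ _ h1 h3, rfl⟩
      | succ d =>
        obtain ⟨h1, h2⟩ := RL_succ.1 hL
        obtain ⟨h3, h4⟩ := RL_succ.1 hL'
        exact ⟨g3_addP_len _ _ h1 h3, ih h2 h4⟩

theorem formsL_RL {X Y : List ℤ} (hX : X.length ≤ 2) (hY : Y.length ≤ 2) (n : ℕ)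
    (fm : List (List ℤ)) : RL 1 0 n (formsL X fm (pwL Y n)) := by
  induction n generalizing fm with
  | zero =>
    cases fm with
    | nil => rw [formsL_nil']; exact RL_nil _ _ _
    | cons l fm =>
      change RL 1 0 0 (formL X l [[1]] :: formsL X fm [])
      rw [formsL_nil]
      exact ⟨formL_len hX hY 0 l, rfl⟩
  | succ n ih =>
    cases fm with
    | nil => rw [formsL_nil']; exact RL_nil _ _ _
    | cons l fm =>
      have h : (formL X l (mulP Y ((pwL Y n).headD []) :: pwL Y n)).length ≤ n + 1 + 1 :=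
        formL_len hX hY (n + 1) l
      rw [pwL_succ, formsL_cons]
      exact ⟨by omega, ih fm⟩

/-! ## tables of the derivatives -/

theorem dbL_nr (M : ℕ) (l : List ℤ) (k : ℕ) (h : k + l.length ≤ M + 1) :
    nrB (dbL k l) ≤ M * nrB l := by
  induction l generalizing k with
  | nil => exact Nat.zero_le _
  | cons c l ih =>
    rw [List.length_cons] at h
    change nrB ((k : ℤ) * c :: dbL (k + 1) l) ≤ _
    rw [nrB_cons, nrB_cons, Int.natAbs_mul, Int.natAbs_natCast]
    have h1 := ih (k + 1) (by omega)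
    calc k * c.natAbs + nrB (dbL (k + 1) l)
        ≤ M * c.natAbs + M * nrB l := Nat.add_le_add (Nat.mul_le_mul_right _ (by omega)) h1
      _ = M * (c.natAbs + nrB l) := by ring

theorem dbL_len (l : List ℤ) (k : ℕ) : (dbL k l).length = l.length := by
  induction l generalizing k with
  | nil => rfl
  | cons c l ih =>
    change (dbL (k + 1) l).length + 1 = l.length + 1
    rw [ih]

theorem nrB_tail (l : List ℤ) : nrB l.tail ≤ nrB l := by
  cases l with
  | nil => exact le_rfl
  | cons c l => rw [List.tail_cons, nrB_cons]; omega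

theorem nrT_tail (L : List (List ℤ)) : nrT L.tail ≤ nrT L := by
  cases L with
  | nil => exact le_rfl
  | cons c l => rw [List.tail_cons, nrT_cons]; omega

theorem dyL_nr (n : ℕ) (l : List ℤ) : nrB (dyL n l) ≤ n * nrB l := by
  induction n generalizing l with
  | zero => cases l <;> exact Nat.zero_le _
  | succ n ih =>
    cases l with
    | nil => exact Nat.zero_le _
    | cons c l =>
      change nrB (((n : ℤ) + 1) * c :: dyL n l) ≤ _
      rw [nrB_cons, nrB_cons, Int.natAbs_mul]
      have h1 : ((n : ℤ) + 1).natAbs = n + 1 := by omega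
      rw [h1]
      calc (n + 1) * c.natAbs + nrB (dyL n l) ≤ (n + 1) * c.natAbs + (n + 1) * nrB l :=
            Nat.add_le_add_left ((ih l).trans (Nat.mul_le_mul_right _ (by omega))) _
        _ = (n + 1) * (c.natAbs + nrB l) := by ring

theorem dyT_nr (N n : ℕ) (hn : n ≤ N) (L : List (List ℤ)) : nrT (dyT n L) ≤ N * nrT L := by
  induction n generalizing L with
  | zero => cases L <;> exact Nat.zero_le _
  | succ n ih =>
    cases L with
    | nil => exact Nat.zero_le _
    | cons l L =>
      change nrT (dyL (n + 1) l :: dyT n L) ≤ _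
      rw [nrT_cons, nrT_cons]
      calc nrB (dyL (n + 1) l) + nrT (dyT n L) ≤ N * nrB l + N * nrT L :=
            Nat.add_le_add ((dyL_nr _ l).trans (Nat.mul_le_mul_right _ hn)) (ih (by omega) L)
        _ = N * (nrB l + nrT L) := by ring

theorem dxT_nr (N n : ℕ) (hn : n ≤ N) (L : List (List ℤ)) (hL : lenOK n L = true) :
    nrT (dxT n L) ≤ N * nrT L := by
  induction n generalizing L with
  | zero => cases L <;> exact Nat.zero_le _
  | succ n ih =>
    cases L with
    | nil => exact Nat.zero_le _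
    | cons l L =>
      have h0 : (Nat.ble l.length (n + 2) && lenOK n L) = true := hL
      rw [Bool.and_eq_true] at h0
      have h1 : l.length ≤ n + 2 := Nat.le_of_ble_eq_true h0.1
      change nrT (dbL 1 l.tail :: dxT n L) ≤ _
      rw [nrT_cons, nrT_cons]
      have h2 : nrB (dbL 1 l.tail) ≤ N * nrB l.tail :=
        dbL_nr N l.tail 1 (by rw [List.length_tail]; omega)
      calc nrB (dbL 1 l.tail) + nrT (dxT n L) ≤ N * nrB l + N * nrT L :=
            Nat.add_le_add (h2.trans (Nat.mul_le_mul_left _ (nrB_tail l)))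
              (ih (by omega) L h0.2)
        _ = N * (nrB l + nrT L) := by ring

theorem map_nr (k : ℕ) (l : List ℤ) : nrB (l.map (fun c => (k : ℤ) * c)) = k * nrB l := by
  induction l with
  | nil => rfl
  | cons c l ih =>
    rw [List.map_cons, nrB_cons, nrB_cons, ih, Int.natAbs_mul, Int.natAbs_natCast]
    ring

theorem mkT_nr (N : ℕ) (L : List (List ℤ)) (k : ℕ) (h : k + L.length ≤ N + 1) :
    nrT (mkT k L) ≤ N * nrT L := by
  induction L generalizing k with
  | nil => exact Nat.zero_le _
  | cons l L ih =>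
    rw [List.length_cons] at h
    change nrT (l.map (fun c => (k : ℤ) * c) :: mkT (k + 1) L) ≤ _
    rw [nrT_cons, nrT_cons, map_nr]
    calc k * nrB l + nrT (mkT (k + 1) L) ≤ N * nrB l + N * nrT L :=
          Nat.add_le_add (Nat.mul_le_mul_right _ (by omega)) (ih (k + 1) (by omega))
      _ = N * (nrB l + nrT L) := by ring

end MK

open MK

/-- all the tables used have small coefficients; `M`: bound for the coordinates -/
theorem sizes {B M um k : ℕ} {t : Tabs} {ch : Chart} (ht : tabsOK t = true) (h0 : 0 ≤ ch.al)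
    (hx : ch.x0.natAbs + ch.x1.natAbs ≤ M) (hy : ch.y0.natAbs + ch.y1.natAbs ≤ M)
    (hz : ch.al.natAbs * um + nrB ch.be ≤ M) (hb : ch.be.length = k + 1)
    (hB : 2 ^ (8 * k + 8) * (128 * (t.nF * M ^ 8) + 1) < 2 ^ (B - 1)) (hu : 1 ≤ um) (hB1 : 1 ≤ B)
    (hk : 1 ≤ k) (hk4 : k ≤ 4) :
    sizeOK B (8 * k) 8 (tabV t.fm ch) 1 um = true ∧
    sizeOK B (8 * k) 8 (dU (tabV t.fm ch)) 1 um = true ∧
    sizeOK B (8 * k) 8 (tabT t ch) 1 um = true ∧
    ∀ e : Bool, sizeOK B 0 8 (atT (tabV t.fm ch) (if e then 1 else 0)) 1 um = true ∧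
      sizeOK B 0 8 (dU (dU (atT (tabV t.fm ch) (if e then 1 else 0)))) 1 um = true := by
  have _ := h0
  unfold tabsOK at ht
  simp only [Bool.and_eq_true, decide_eq_true_eq] at ht
  obtain ⟨⟨⟨⟨⟨h1, h2⟩, h3⟩, h4⟩, h5⟩, h6⟩ := ht
  have hlen : t.fm.length = 9 := Nat.eq_of_beq_eq_true h1
  have hnF : nrT t.fm ≤ t.nF := Nat.le_of_ble_eq_true h6
  have hX : absP [ch.x0, ch.x1] 1 ≤ M := by
    rw [absP_one]
    exact hx
  have hY : absP [ch.y0, ch.y1] 1 ≤ M := by
    rw [absP_one]
    exact hy
  have hX2 : [ch.x0, ch.x1].length ≤ 2 := le_rfl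
  have hY2 : [ch.y0, ch.y1].length ≤ 2 := le_rfl
  have hz' : ch.al.natAbs * um + absP ch.be 1 ≤ M := by rw [absP_one]; exact hz
  have hb' : ch.be.length ≤ k + 1 := hb.le
  -- the main table
  have hVa : absT (tabV t.fm ch) 1 um ≤ t.nF * M ^ 8 := by
    unfold tabV
    rw [scL_abs, Int.natAbs_one, Nat.one_mul]
    exact (shL_abs _ _ _).trans ((formsL_abs hX hY hz' 8 t.fm).trans
      (Nat.mul_le_mul_right _ hnF))
  have hVL : G3L (8 * k) 8 (tabV t.fm ch) :=
    RL_G3L (scL_RL _ _ (shL_RL hk hb' (formsL_RL hX2 hY2 8 t.fm))) (by omega)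
  have hV128 : absT (tabV t.fm ch) 1 um ≤ 128 * (t.nF * M ^ 8) := by omega
  -- the derivative
  have hTa : absT (tabT t ch) 1 um ≤ 128 * (t.nF * M ^ 8) := by
    unfold tabT
    rw [scL_abs, Int.natAbs_one, Nat.one_mul]
    refine (shL_abs _ _ _).trans ?_
    have a1 := g3_absT_add ((formsL [ch.x0, ch.x1] t.fx (pwL [ch.y0, ch.y1] 7)).map (smulP ch.x1))
      (addT ((formsL [ch.x0, ch.x1] t.fy (pwL [ch.y0, ch.y1] 7)).map (smulP ch.y1))
        ((formsL [ch.x0, ch.x1] t.fz (pwL [ch.y0, ch.y1] 7)).map (mulP (dbL 1 ch.be.tail))))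
      1 (ch.al.natAbs * um + absP ch.be 1)
    have a2 := g3_absT_add ((formsL [ch.x0, ch.x1] t.fy (pwL [ch.y0, ch.y1] 7)).map (smulP ch.y1))
        ((formsL [ch.x0, ch.x1] t.fz (pwL [ch.y0, ch.y1] 7)).map (mulP (dbL 1 ch.be.tail)))
      1 (ch.al.natAbs * um + absP ch.be 1)
    have bx : nrT t.fx ≤ 8 * t.nF := by
      rw [h3]
      exact (dxT_nr 8 8 le_rfl _ h2).trans (Nat.mul_le_mul_left _ hnF)
    have by' : nrT t.fy ≤ 8 * t.nF := by
      rw [h4]
      exact (dyT_nr 8 8 le_rfl _).trans (Nat.mul_le_mul_left _ hnF)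
    have bz : nrT t.fz ≤ 8 * t.nF := by
      rw [h5]
      exact (mkT_nr 8 _ 1 (by rw [List.length_tail, hlen])).trans
        (Nat.mul_le_mul_left _ ((nrT_tail _).trans hnF))
    have cx := formsL_abs hX hY hz' 7 t.fx
    have cy := formsL_abs hX hY hz' 7 t.fy
    have cz := formsL_abs hX hY hz' 7 t.fz
    have hbe : absP (dbL 1 ch.be.tail) 1 ≤ 4 * M := by
      rw [absP_one]
      refine (dbL_nr 4 _ 1 (by rw [List.length_tail]; omega)).trans (Nat.mul_le_mul_left _ ?_)
      exact (nrB_tail _).trans (by omega)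
    have dx : absT ((formsL [ch.x0, ch.x1] t.fx (pwL [ch.y0, ch.y1] 7)).map (smulP ch.x1)) 1
        (ch.al.natAbs * um + absP ch.be 1) ≤ 8 * (t.nF * M ^ 8) := by
      rw [g3_absT_smul]
      calc ch.x1.natAbs * absT (formsL [ch.x0, ch.x1] t.fx (pwL [ch.y0, ch.y1] 7)) 1
            (ch.al.natAbs * um + absP ch.be 1) ≤ M * (8 * t.nF * M ^ 7) :=
            Nat.mul_le_mul (by omega) (cx.trans (Nat.mul_le_mul_right _ bx))
        _ = 8 * (t.nF * M ^ 8) := by ring
    have dy : absT ((formsL [ch.x0, ch.x1] t.fy (pwL [ch.y0, ch.y1] 7)).map (smulP ch.y1)) 1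
        (ch.al.natAbs * um + absP ch.be 1) ≤ 8 * (t.nF * M ^ 8) := by
      rw [g3_absT_smul]
      calc ch.y1.natAbs * absT (formsL [ch.x0, ch.x1] t.fy (pwL [ch.y0, ch.y1] 7)) 1
            (ch.al.natAbs * um + absP ch.be 1) ≤ M * (8 * t.nF * M ^ 7) :=
            Nat.mul_le_mul (by omega) (cy.trans (Nat.mul_le_mul_right _ by'))
        _ = 8 * (t.nF * M ^ 8) := by ring
    have dz : absT ((formsL [ch.x0, ch.x1] t.fz (pwL [ch.y0, ch.y1] 7)).map
        (mulP (dbL 1 ch.be.tail))) 1 (ch.al.natAbs * um + absP ch.be 1) ≤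
        32 * (t.nF * M ^ 8) := by
      refine (mapmul_abs _ _ _ _).trans ?_
      calc absP (dbL 1 ch.be.tail) 1 * absT (formsL [ch.x0, ch.x1] t.fz (pwL [ch.y0, ch.y1] 7)) 1
            (ch.al.natAbs * um + absP ch.be 1) ≤ 4 * M * (8 * t.nF * M ^ 7) :=
            Nat.mul_le_mul hbe (cz.trans (Nat.mul_le_mul_right _ bz))
        _ = 32 * (t.nF * M ^ 8) := by ring
    omega
  have hTL : G3L (8 * k) 8 (tabT t ch) := by
    have hf : RL 1 (k - 1) 7 (addT ((formsL [ch.x0, ch.x1] t.fx (pwL [ch.y0, ch.y1] 7)).map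
        (smulP ch.x1)) (addT ((formsL [ch.x0, ch.x1] t.fy (pwL [ch.y0, ch.y1] 7)).map
        (smulP ch.y1)) ((formsL [ch.x0, ch.x1] t.fz (pwL [ch.y0, ch.y1] 7)).map
        (mulP (dbL 1 ch.be.tail))))) := by
      refine RL_add ?_ (RL_add ?_ ?_)
      · refine RL_map (fun l n hl => ?_) (formsL_RL hX2 hY2 7 t.fx)
        unfold smulP
        rw [List.length_map]
        omega
      · refine RL_map (fun l n hl => ?_) (formsL_RL hX2 hY2 7 t.fy)
        unfold smulP
        rw [List.length_map]
        omega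
      · refine RL_map (fun l n hl => ?_) (formsL_RL hX2 hY2 7 t.fz)
        have hd : (dbL 1 ch.be.tail).length ≤ (k - 1) + 1 := by
          rw [dbL_len, List.length_tail]
          omega
        have := mulP_len (n := n) hd (by omega : l.length ≤ n + 1)
        omega
    have h7 : G3L (8 * k) 7 (tabT t ch) := by
      unfold tabT
      exact RL_G3L (scL_RL _ _ (shL_RL hk hb' hf)) (by omega)
    exact ⟨h7.1.trans (by omega), h7.2⟩
  refine ⟨g3_size le_rfl hVL hV128 hB hB1 hu le_rfl, ?_,
    g3_size le_rfl hTL hTa hB hB1 hu le_rfl, fun e => ?_⟩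
  · refine g3_size le_rfl hVL.dU ((g3_dU_abs 1 um hu hVL.1).trans ?_) hB hB1 hu le_rfl
    omega
  · have he : ∃ a : ℕ, a ≤ 1 ∧ (if e then (1 : ℤ) else 0) = (a : ℤ) := by
      cases e
      · exact ⟨0, by omega, rfl⟩
      · exact ⟨1, le_rfl, rfl⟩
    obtain ⟨a, ha, hea⟩ := he
    rw [hea]
    have hA := hVL.atT (a : ℤ)
    have hAb : absT (atT (tabV t.fm ch) (a : ℤ)) 1 um ≤ absT (tabV t.fm ch) 1 um :=
      g3_atT_abs (tabV t.fm ch) um ha
    refine ⟨g3_size (Nat.zero_le _) hA (hAb.trans hV128) hB hB1 hu le_rfl, ?_⟩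
    refine g3_size (Nat.zero_le _) hA.dU.dU ?_ hB hB1 hu le_rfl
    have e1 := g3_dU_abs 1 um hu hA.dU.1
    have e2 := g3_dU_abs 1 um hu hA.1
    omega

end Oct.N
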